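import Mathlib

namespace Pool.Agent.Results.MP_af59ae_nt.Goldbach

/-- `n` is attained: `x mod φ(x) = n` for some `x ≥ 1`. -/
def Att (n : ℕ) : Prop := ∃ x, 1 ≤ x ∧ x % Nat.totient x = n

lemma mk (x f c n : ℕ) (hx : 1 ≤ x) (h1 : Nat.totient x = f) (h2 : x = n + f * c) (h3 : n < f) : Att n :=
  ⟨x, hx, by rw [h1, h2, Nat.add_mul_mod_self_left, Nat.mod_eq_of_lt h3]⟩

lemma c2 (a p : ℕ) (hp : p.Prime) (h : 3 ≤ p) : Nat.Coprime (2 ^ a) p :=
  Nat.Coprime.pow_left _ ((Nat.coprime_primes Nat.prime_two hp).2 (by omega))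

lemma pq (a p q : ℕ) (hp : p.Prime) (hq : q.Prime) (h5 : 5 ≤ p) (hpq : p < q) :
    Att (2 ^ a * (p + q - 1)) := by
  have h6 : q ≠ 6 := by rintro rfl; norm_num at hq
  have co : Nat.Coprime p q := (Nat.coprime_primes hp hq).2 (by omega)
  have t : Nat.totient (p * q) = (p - 1) * (q - 1) := by
    rw [Nat.totient_mul co, Nat.totient_prime hp, Nat.totient_prime hq]
  obtain ⟨u, rfl⟩ : ∃ u, p = u + 5 := ⟨p - 5, by omega⟩
  obtain ⟨v, rfl⟩ : ∃ v, q = v + 7 := ⟨q - 7, by omega⟩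
  rw [show u + 5 - 1 = u + 4 by omega, show v + 7 - 1 = v + 6 by omega] at t
  rw [show u + 5 + (v + 7) - 1 = u + v + 11 by omega]
  cases a with
  | zero => exact mk _ _ 1 _ (by nlinarith) t (by ring) (by nlinarith)
  | succ a =>
    have h0 : 0 < 2 ^ a := by positivity
    refine mk (2 ^ (a + 1) * ((u + 5) * (v + 7))) (2 ^ a * ((u + 4) * (v + 6))) 2 _
      (Nat.succ_le_of_lt (by positivity)) ?_ (by ring) ?_
    · rw [Nat.totient_mul ((c2 _ _ hp (by omega)).mul_right (c2 _ _ hq (by omega))), t,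
        Nat.totient_prime_pow_succ Nat.prime_two]
      simp
    · rw [pow_succ, mul_assoc]
      exact Nat.mul_lt_mul_of_pos_left (by nlinarith) h0

lemma fam (a b j p : ℕ) (hp : p.Prime) (h5 : 5 ≤ p) : Att (2 ^ (a + 1) * 3 ^ b * p ^ j) := by
  have c3 : Nat.Coprime (3 ^ b) (p ^ (j + 1)) :=
    Nat.Coprime.pow _ _ ((Nat.coprime_primes Nat.prime_three hp).2 (by omega))
  have c4 : Nat.Coprime (2 ^ (a + 1)) (3 ^ b * p ^ (j + 1)) :=
    Nat.Coprime.mul_right (Nat.Coprime.pow _ _ (by norm_num)) ((c2 _ _ hp (by omega)).pow_right _)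
  have t := Nat.totient_mul c4
  rw [Nat.totient_mul c3, Nat.totient_prime_pow_succ Nat.prime_two, Nat.totient_prime_pow_succ hp] at t
  obtain ⟨u, rfl⟩ : ∃ u, p = u + 5 := ⟨p - 5, by omega⟩
  rw [show u + 5 - 1 = u + 4 by omega, show 2 - 1 = 1 by rfl] at t
  cases b with
  | zero =>
    have h0 : 0 < 2 ^ a * (u + 5) ^ j := by positivity
    refine mk _ _ 2 _ (Nat.succ_le_of_lt (by positivity)) t ?_ ?_
    · simp only [pow_zero, Nat.totient_one]; ring
    · simp only [pow_zero, Nat.totient_one, pow_succ]; nlinarith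
  | succ b =>
    have h0 : 0 < 2 ^ a * 3 ^ b * (u + 5) ^ j := by positivity
    rw [Nat.totient_prime_pow_succ Nat.prime_three, show 3 - 1 = 2 by rfl] at t
    refine mk _ _ 3 _ (Nat.succ_le_of_lt (by positivity)) t (by ring) ?_
    simp only [pow_succ]; nlinarith

theorem result :
    (∀ a p q : ℕ, p.Prime → q.Prime → 5 ≤ p → p < q → Att (2 ^ a * (p + q - 1))) ∧
    (∀ a b j p : ℕ, p.Prime → 5 ≤ p → Att (2 ^ (a + 1) * 3 ^ b * p ^ j)) ∧
    ((∀ m : ℕ, Even m → 16 ≤ m → ∃ p q : ℕ, p.Prime ∧ q.Prime ∧ 5 ≤ p ∧ p < q ∧ p + q = m) →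
      ∀ n, Att n) := by
  refine ⟨pq, fam, fun G n => ?_⟩
  rcases Nat.eq_zero_or_pos n with rfl | hn
  · exact ⟨1, le_rfl, by simp⟩
  obtain ⟨a, w, ⟨v, rfl⟩, rfl⟩ := Nat.exists_eq_two_pow_mul_odd hn.ne'
  rcases le_or_gt 7 v with h | h
  · obtain ⟨p, q, hp, hq, h5, h6, e⟩ := G (2 * v + 2) ⟨v + 1, by ring⟩ (by omega)
    have := pq a p q hp hq h5 h6
    rwa [e] at this
  · cases a with
    | zero =>
      interval_cases v
      · exact ⟨3, by norm_num, by decide +kernel⟩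
      · exact ⟨9, by norm_num, by decide +kernel⟩
      · exact ⟨25, by norm_num, by decide +kernel⟩
      · exact ⟨49, by norm_num, by decide +kernel⟩
      · exact ⟨27, by norm_num, by decide +kernel⟩
      · exact ⟨121, by norm_num, by decide +kernel⟩
      · exact ⟨169, by norm_num, by decide +kernel⟩
    | succ a =>
      interval_cases v
      · simpa using fam a 0 0 5 (by norm_num) le_rfl
      · simpa using fam a 1 0 5 (by norm_num) le_rfl
      · simpa using fam a 0 1 5 (by norm_num) le_rfl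
      · simpa using fam a 0 1 7 (by norm_num) (by norm_num)
      · simpa using fam a 2 0 5 (by norm_num) le_rfl
      · simpa using fam a 0 1 11 (by norm_num) (by norm_num)
      · simpa using fam a 0 1 13 (by norm_num) (by norm_num)

end Pool.Agent.Results.MP_af59ae_nt.Goldbach
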